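import Mathlib
import Pool.Agent.Run7.h285.R.Stm

/-!
# Project RP (helper285), piece R6: pairs of events in prescribed residue classes

`t_R6 : 1 ≤ k → (∀ l, Gd (f l)) → (∀ l, S_R1 (f l)) → S_R6 f`.
-/

set_option autoImplicit false

namespace Run7.h958.RP

open Finset Filter Topology Polynomial
open Run7.h285.G (Gd)
open Run7.h285.R (c2 S_R1 S_R6)

/-- the number of the elements of a residue class in an interval -/
theorem cls (m₀ M q r : ℕ) (hq : 1 ≤ q) :
    M / q ≤ #((Ioc m₀ (m₀ + M)).filter (fun m : ℕ => m % q = r % q)) := by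
  -- injection t ↦ s + q t
  have key : ∀ t < M / q, (m₀ + 1 + (r + q * (m₀ + 1) - (m₀ + 1)) % q) + q * t ≤ m₀ + M := by
    intro t ht
    have h1 : (r + q * (m₀ + 1) - (m₀ + 1)) % q < q := Nat.mod_lt _ hq
    have h2 : q * (t + 1) ≤ q * (M / q) := Nat.mul_le_mul_left _ ht
    have h3 : q * (M / q) ≤ M := Nat.mul_div_le M q
    have h4 : q * (t + 1) = q * t + q := by ring
    omega
  have hge : m₀ + 1 ≤ r + q * (m₀ + 1) := by
    have : 1 * (m₀ + 1) ≤ q * (m₀ + 1) := Nat.mul_le_mul_right _ hq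
    omega
  have hinj : Set.InjOn (fun t : ℕ => (m₀ + 1 + (r + q * (m₀ + 1) - (m₀ + 1)) % q) + q * t) (range (M / q) : Set ℕ) := by
    intro a _ b _ hab
    have : q * a = q * b := by
      have h := hab
      simp only at h
      omega
    exact Nat.eq_of_mul_eq_mul_left hq this
  calc M / q = #(range (M / q)) := (card_range _).symm
    _ = #((range (M / q)).image (fun t : ℕ => (m₀ + 1 + (r + q * (m₀ + 1) - (m₀ + 1)) % q) + q * t)) :=
        (card_image_of_injOn hinj).symm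
    _ ≤ _ := by
        apply card_le_card
        intro x hx
        obtain ⟨t, ht, rfl⟩ := mem_image.1 hx
        rw [mem_filter, mem_Ioc]
        refine ⟨⟨?_, key t (mem_range.1 ht)⟩, ?_⟩
        · omega
        · rw [Nat.add_mul_mod_self_left]
          conv_lhs => rw [Nat.add_mod, Nat.mod_mod, ← Nat.add_mod]
          rw [Nat.add_sub_cancel' hge, Nat.add_mul_mod_self_left]

/-- the differences of values of a polynomial -/
theorem dvd_of_mod (g : ℤ[X]) (a b : ℕ) (h : a % 2 = b % 2) : (2 : ℤ) ∣ g.eval (a : ℤ) - g.eval (b : ℤ) := by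
  have h1 : (2 : ℤ) ∣ (a : ℤ) - b := by omega
  exact h1.trans (Polynomial.sub_dvd_eval_sub _ _ _)

/-- the good shifts -/
theorem shifts (H q r1 r2 : ℕ) (hq : 1 ≤ q) (hH : 2 * q ≤ H) :
    ∃ I : Finset ℕ, (∀ i ∈ I, 1 ≤ i ∧ i ≤ H ∧ (r1 + i) % q = r2 % q ∧ (¬ 2 ∣ q → 2 ∣ i)) ∧ (H : ℝ) / (4 * q) ≤ #I := by
  -- the class modulo 2 q
  obtain ⟨s, hs1, hs2⟩ : ∃ s : ℕ, (r1 + s) % q = r2 % q ∧ (¬ 2 ∣ q → 2 ∣ s) := by
    have h0 : (r1 + (r2 + (q - 1) * r1)) % q = r2 % q := by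
      have : r1 + (r2 + (q - 1) * r1) = r2 + q * r1 := by
        obtain ⟨p, rfl⟩ : ∃ p, q = p + 1 := ⟨q - 1, by omega⟩
        simp only [Nat.add_sub_cancel]
        ring
      rw [this, Nat.add_mul_mod_self_left]
    by_cases hp : 2 ∣ (r2 + (q - 1) * r1)
    · exact ⟨_, h0, fun _ => hp⟩
    · refine ⟨r2 + (q - 1) * r1 + q, ?_, fun hq2 => by omega⟩
      rw [← Nat.add_assoc, Nat.add_mod_right]
      exact h0
  set I : Finset ℕ := (Ioc 0 (0 + H)).filter (fun i => i % (2 * q) = s % (2 * q)) with hI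
  have hc := cls 0 H (2 * q) s (by omega)
  refine ⟨I, ?_, ?_⟩
  · intro i hi
    rw [hI, mem_filter, mem_Ioc] at hi
    obtain ⟨⟨hi1, hi2⟩, hi3⟩ := hi
    have hq' : i % q = s % q := by
      have := congrArg (· % q) hi3
      simp only [Nat.mod_mul_left_mod] at this
      exact this
    have h2' : i % 2 = s % 2 := by
      have := congrArg (· % 2) hi3
      simp only [Nat.mod_mul_right_mod] at this
      exact this
    refine ⟨by omega, by omega, ?_, fun hq2 => ?_⟩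
    · rw [Nat.add_mod, hq', ← Nat.add_mod]
      exact hs1
    · have := hs2 hq2
      omega
  · have h1 : (H : ℝ) / (4 * q) ≤ ((H / (2 * q) : ℕ) : ℝ) := by
      have hqpos : (0 : ℝ) < q := by exact_mod_cast hq
      have hb : H < 2 * q * (H / (2 * q) + 1) := Nat.lt_mul_div_succ H (by omega)
      have ha : 1 ≤ H / (2 * q) := (Nat.one_le_div_iff (by omega)).2 hH
      have hb' : (H : ℝ) < 2 * q * (((H / (2 * q) : ℕ) : ℝ) + 1) := by exact_mod_cast hb
      have ha' : (1 : ℝ) ≤ ((H / (2 * q) : ℕ) : ℝ) := by exact_mod_cast ha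
      rw [div_le_iff₀ (by positivity)]
      nlinarith
    exact h1.trans (by exact_mod_cast hc)

/-- **R6** -/
theorem t_R6 {k : ℕ} (f : Fin k → ℤ[X]) (hk : 1 ≤ k) (hG : ∀ l, Gd (f l)) (hR : ∀ l, S_R1 (f l)) : S_R6 f := by
  intro q r1 r2 hq hpar
  have hqpos : (0 : ℝ) < q := by exact_mod_cast hq
  refine ⟨1 / (16 * (q : ℝ) ^ 2 * 8 ^ k), by positivity, ?_⟩
  intro C D
  choose B X₀ hB using fun l => hR l 1 C D
  -- the logarithm is large, the numbers M are large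
  have hlog : ∀ᶠ X : ℕ in atTop, (4 * (q : ℝ) * k + 1) ≤ Real.log X :=
    (Real.tendsto_log_atTop.comp tendsto_natCast_atTop_atTop).eventually_ge_atTop _
  have hthird : ∀ᶠ X : ℕ in atTop, ((q : ℝ) ^ ((f ⟨0, hk⟩).natDegree - 1) + 1) ≤ (X : ℝ) ^ (1 / 3 : ℝ) :=
    ((tendsto_rpow_atTop (by norm_num : (0 : ℝ) < 1 / 3)).comp tendsto_natCast_atTop_atTop).eventually_ge_atTop _
  obtain ⟨X₁, hX₁⟩ := eventually_atTop.1 (hlog.and hthird)
  refine ⟨∑ l, B l, X₁ + ∑ l, X₀ l, ?_⟩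
  intro X hX m₀ M H hH hHL hM hm
  obtain ⟨hL, h3⟩ := hX₁ X (by omega)
  set L : ℝ := Real.log X with hLdef
  have hk1 : (1 : ℝ) ≤ k := by exact_mod_cast hk
  have hL1 : 1 ≤ L := by
    have : (0 : ℝ) ≤ 4 * (q : ℝ) * k := by positivity
    linarith
  have hLpos : 0 < L := by linarith
  -- M is at least q
  have hMq : q ≤ M := by
    by_contra hlt
    rw [not_le] at hlt
    have h1 : (M : ℝ) ^ ((f ⟨0, hk⟩).natDegree - 1) ≤ (q : ℝ) ^ ((f ⟨0, hk⟩).natDegree - 1) :=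
      pow_le_pow_left₀ (by positivity) (by exact_mod_cast hlt.le) _
    have h2 := hM ⟨0, hk⟩
    have h4 : (X : ℝ) ^ (1 / 3 : ℝ) * 1 ≤ (X : ℝ) ^ (1 / 3 : ℝ) * L ^ (∑ l, B l) :=
      mul_le_mul_of_nonneg_left (one_le_pow₀ hL1) (by positivity)
    linarith
  obtain ⟨I, hI1, hI2⟩ := shifts H q r1 r2 hq hH
  -- the bad numbers
  set bad : ℕ → Finset ℕ := fun i => univ.biUnion (fun l : Fin k => (Ioc m₀ (m₀ + M)).filter
    (fun m : ℕ => (2 : ℤ) ∣ (f l).eval ((m + i : ℕ) : ℤ) - (f l).eval (m : ℤ) ∧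
      (c2 (f l) X m (m + i) : ℝ) < X / (8 * L ^ 2))) with hbad
  have hbadc : ∀ i ∈ I, (#(bad i) : ℝ) ≤ M / (4 * q) := by
    intro i hi
    obtain ⟨hi1, hi2, -, -⟩ := hI1 i hi
    have h1 : (#(bad i) : ℝ) ≤ ∑ l : Fin k, (M : ℝ) / L ^ 1 := by
      have : (#(bad i) : ℝ) ≤ ∑ l : Fin k, (#((Ioc m₀ (m₀ + M)).filter
        (fun m : ℕ => (2 : ℤ) ∣ (f l).eval ((m + i : ℕ) : ℤ) - (f l).eval (m : ℤ) ∧
          (c2 (f l) X m (m + i) : ℝ) < X / (8 * L ^ 2))) : ℝ) := by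
        rw [hbad]
        exact_mod_cast card_biUnion_le
      refine this.trans (sum_le_sum fun l _ => ?_)
      have hXl : X₀ l ≤ X := by
        have : X₀ l ≤ ∑ l, X₀ l := single_le_sum (f := X₀) (fun _ _ => Nat.zero_le _) (mem_univ l)
        omega
      refine hB l X hXl m₀ M i hi1 ?_ ?_ (hm l)
      · exact (by exact_mod_cast hi2 : (i : ℝ) ≤ H).trans hHL
      · refine le_trans ?_ (hM l)
        refine mul_le_mul_of_nonneg_left ?_ (by positivity)
        exact pow_le_pow_right₀ hL1 (single_le_sum (f := B) (fun _ _ => Nat.zero_le _) (mem_univ l))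
    refine h1.trans ?_
    rw [sum_const, card_univ, Fintype.card_fin, nsmul_eq_mul, pow_one, le_div_iff₀ (by positivity)]
    have : (k : ℝ) * (M / L) * (4 * q) = (4 * q * k) * M / L := by ring
    rw [this, div_le_iff₀ hLpos]
    have hM0 : (0 : ℝ) ≤ M := by positivity
    nlinarith
  -- the good numbers
  set good : ℕ → Finset ℕ := fun i => ((Ioc m₀ (m₀ + M)).filter (fun m : ℕ => m % q = r1 % q)) \ bad i with hgood
  have hgoodc : ∀ i ∈ I, (M : ℝ) / (4 * q) ≤ #(good i) := by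
    intro i hi
    have h1 := cls m₀ M q r1 hq
    have h2 : #((Ioc m₀ (m₀ + M)).filter (fun m : ℕ => m % q = r1 % q)) ≤ #(good i) + #(bad i) := by
      rw [hgood]
      exact card_le_card_sdiff_add_card
    have h3 : (M : ℝ) / (2 * q) ≤ ((M / q : ℕ) : ℝ) := by
      have hb : M < q * (M / q + 1) := Nat.lt_mul_div_succ M hq
      have ha : 1 ≤ M / q := (Nat.one_le_div_iff hq).2 hMq
      have hb' : (M : ℝ) < q * (((M / q : ℕ) : ℝ) + 1) := by exact_mod_cast hb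
      have ha' : (1 : ℝ) ≤ ((M / q : ℕ) : ℝ) := by exact_mod_cast ha
      rw [div_le_iff₀ (by positivity)]
      nlinarith
    have h4 := hbadc i hi
    have h5 : ((M / q : ℕ) : ℝ) ≤ #(good i) + #(bad i) := by exact_mod_cast h1.trans h2
    have h6 : (M : ℝ) / (2 * q) = M / (4 * q) + M / (4 * q) := by field_simp; ring
    linarith
  -- the values at the good numbers
  have hval : ∀ i ∈ I, ∀ m ∈ good i, ((X : ℝ) / (8 * L ^ 2)) ^ k ≤ ∏ l, (c2 (f l) X m (m + i) : ℝ) := by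
    intro i hi m hm'
    obtain ⟨hi1, hi2, hi3, hi4⟩ := hI1 i hi
    rw [hgood] at hm'
    simp only [Finset.mem_sdiff, mem_filter, mem_Ioc] at hm'
    obtain ⟨⟨hm1, hm2⟩, hm3⟩ := hm'
    have hl : ∀ l, (X : ℝ) / (8 * L ^ 2) ≤ (c2 (f l) X m (m + i) : ℝ) := by
      intro l
      by_contra hlt
      rw [not_le] at hlt
      apply hm3
      rw [hbad]
      simp only [mem_biUnion, mem_univ, true_and, mem_filter, mem_Ioc]
      refine ⟨l, hm1, ?_, hlt⟩
      by_cases hq2 : 2 ∣ q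
      · obtain ⟨u, rfl⟩ := hq2
        have e1 : m % 2 = r1 % 2 := by
          have := congrArg (· % 2) hm2
          simp only [Nat.mod_mul_right_mod] at this
          exact this
        have e2 : (m + i) % 2 = r2 % 2 := by
          have := congrArg (· % 2) hi3
          simp only [Nat.mod_mul_right_mod] at this
          omega
        have d1 := dvd_of_mod (f l) (m + i) r2 e2
        have d2 := dvd_of_mod (f l) m r1 e1
        have d3 := hpar ⟨u, rfl⟩ l
        have : (f l).eval ((m + i : ℕ) : ℤ) - (f l).eval (m : ℤ) =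
          ((f l).eval ((m + i : ℕ) : ℤ) - (f l).eval (r2 : ℤ)) - ((f l).eval (m : ℤ) - (f l).eval (r1 : ℤ)) -
            ((f l).eval (r1 : ℤ) - (f l).eval (r2 : ℤ)) := by ring
        rw [this]
        exact dvd_sub (dvd_sub d1 d2) d3
      · have := hi4 hq2
        exact dvd_of_mod (f l) (m + i) m (by omega)
    calc ((X : ℝ) / (8 * L ^ 2)) ^ k = ∏ _l : Fin k, ((X : ℝ) / (8 * L ^ 2)) := by
          rw [prod_const, card_univ, Fintype.card_fin]
      _ ≤ _ := prod_le_prod (fun l _ => by positivity) (fun l _ => hl l)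
  -- assembly
  have hprod0 : ∀ m i : ℕ, 0 ≤ ∏ l, (c2 (f l) X m (m + i) : ℝ) := fun m i => prod_nonneg fun l _ => by positivity
  have step1 : ∑ i ∈ I, ∑ m ∈ good i, ∏ l, (c2 (f l) X m (m + i) : ℝ) ≤
      ∑ m ∈ (Ioc m₀ (m₀ + M)).filter (fun m : ℕ => m % q = r1 % q), ∑ i ∈ (Icc 1 H).filter (fun i : ℕ => (m + i) % q = r2 % q),
      ∏ l, (c2 (f l) X m (m + i) : ℝ) := by
    have hA : ∑ i ∈ I, ∑ m ∈ good i, ∏ l, (c2 (f l) X m (m + i) : ℝ) ≤
        ∑ i ∈ I, ∑ m ∈ (Ioc m₀ (m₀ + M)).filter (fun m : ℕ => m % q = r1 % q), ∏ l, (c2 (f l) X m (m + i) : ℝ) :=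
      sum_le_sum fun i _ => sum_le_sum_of_subset_of_nonneg (by rw [hgood]; exact sdiff_subset) (fun m _ _ => hprod0 m i)
    refine hA.trans ?_
    rw [sum_comm]
    refine sum_le_sum fun m hm' => sum_le_sum_of_subset_of_nonneg ?_ (fun i _ _ => hprod0 m i)
    intro i hi
    obtain ⟨hi1, hi2, hi3, -⟩ := hI1 i hi
    rw [mem_filter] at hm'
    rw [mem_filter, mem_Icc]
    refine ⟨⟨hi1, hi2⟩, ?_⟩
    rw [Nat.add_mod, hm'.2, ← Nat.add_mod]
    exact hi3
  refine le_trans ?_ step1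
  have step2 : ∑ i ∈ I, ((M : ℝ) / (4 * q)) * ((X : ℝ) / (8 * L ^ 2)) ^ k ≤
      ∑ i ∈ I, ∑ m ∈ good i, ∏ l, (c2 (f l) X m (m + i) : ℝ) := by
    refine sum_le_sum fun i hi => ?_
    calc ((M : ℝ) / (4 * q)) * ((X : ℝ) / (8 * L ^ 2)) ^ k ≤ (#(good i) : ℝ) * ((X : ℝ) / (8 * L ^ 2)) ^ k :=
          mul_le_mul_of_nonneg_right (hgoodc i hi) (by positivity)
      _ = ∑ m ∈ good i, ((X : ℝ) / (8 * L ^ 2)) ^ k := by rw [sum_const, nsmul_eq_mul]
      _ ≤ _ := sum_le_sum fun m hm' => hval i hi m hm'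
  refine le_trans ?_ step2
  rw [sum_const, nsmul_eq_mul]
  have step3 : (H : ℝ) / (4 * q) * (((M : ℝ) / (4 * q)) * ((X : ℝ) / (8 * L ^ 2)) ^ k) ≤
      (#I : ℝ) * (((M : ℝ) / (4 * q)) * ((X : ℝ) / (8 * L ^ 2)) ^ k) :=
    mul_le_mul_of_nonneg_right hI2 (by positivity)
  refine le_trans (le_of_eq ?_) step3
  rw [div_pow, mul_pow, ← pow_mul, ← pow_mul, mul_comm k 2]
  field_simp
  ring

end Run7.h958.RP
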